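import Pool.Agent.Helper4.TK.StD
import Pool.Agent.Helper99.W5.M_Ld

/-!
# Project TK, levels `3·5^n`, module LdV: leading forms of the second operator

Adapted from Helper77/TH/M_LdV.lean.
-/

set_option autoImplicit false

namespace Pool.Agent.Helper16.TK

open Pool.Agent.Helper4.TK
open Pool.Agent.Helper14.W5 (tr5 Fn5 Tm opL op5 oA oB oD oW mulL sclL Gd Wd5 dX dY Lw cS M7 S5Trm
  S5Low0 S5Nfa S5Exp)
open Pool.Agent.Helper99.W5

private theorem lv_gd_id (c : ℤ) (i f : Fin 3) : ∀ t ∈ id3 c i f, Gd t := by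
  intro t ht
  unfold id3 at ht
  split_ifs at ht
  · rw [List.mem_singleton] at ht
    subst ht
    unfold Gd
    simp
  · simp at ht

private theorem lv_gd_mm {A B : Fin 3 → Fin 3 → List Tm} (hA : ∀ i f, ∀ t ∈ A i f, Gd t)
    (hB : ∀ i f, ∀ t ∈ B i f, Gd t) (i f : Fin 3) : ∀ t ∈ mm3 A B i f, Gd t :=
  ld_gd_app (ld_gd_app (ld_gd_mulL (hA i 0) (hB 0 f)) (ld_gd_mulL (hA i 1) (hB 1 f)))
    (ld_gd_mulL (hA i 2) (hB 2 f))

/-- The coefficients. -/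
private def cv (i f : Fin 3) (w : Fin 4) (t : ℕ × ℕ × ℕ) : ℤ :=
  if i = f ∧ w = 0 then (if t = (1, 0, 5) ∨ t = (5, 0, 1) then 1 else if t = (3, 0, 3) then 2 else 0)
  else 0

private theorem cv1 {i f : Fin 3} (h : i = f) : cv i f 0 (1, 0, 5) = 1 := by
  subst h
  simp [cv]

private theorem cv3 {i f : Fin 3} (h : i = f) : cv i f 0 (3, 0, 3) = 2 := by
  subst h
  simp [cv]

private theorem cv5 {i f : Fin 3} (h : i = f) : cv i f 0 (5, 0, 1) = 1 := by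
  subst h
  simp [cv]

private theorem cvn {i f : Fin 3} (h : i ≠ f) (w : Fin 4) (t : ℕ × ℕ × ℕ) : cv i f w t = 0 := by
  unfold cv
  rw [if_neg (fun h1 => h h1.1)]

private theorem cv0 (i f : Fin 3) (w : Fin 4) (t : ℕ × ℕ × ℕ)
    (h : w ≠ 0 ∨ t ∉ ({(1, 0, 5), (3, 0, 3), (5, 0, 1)} : Finset (ℕ × ℕ × ℕ))) :
    cv i f w t = 0 := by
  unfold cv
  by_cases h1 : i = f ∧ w = 0
  · rw [if_pos h1]
    rcases h with h | h
    · exact absurd h1.2 h
    · simp only [Finset.mem_insert, Finset.mem_singleton, not_or] at h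
      rw [if_neg (fun h2 => h2.elim h.1 h.2.2), if_neg h.2.1]
  · rw [if_neg h1]

section ops

variable {r s : ℕ}

/-- A multiple of the relation vanishes. -/
private theorem lv_mulrel (hTrm : S5Trm) (hR : TRll) (F : Fin 3 → Fn5 (5 ^ r) (5 ^ s)) (h : RelK F)
    (U : List Tm) (hU : ∀ t ∈ U, Gd t) (hr : ∀ f, ∀ t ∈ relK f, Gd t) :
    ∑ f : Fin 3, opL (sclL (-1) (mulL U (relK f))) (F f) = 0 := by
  have h1 : ∀ f : Fin 3, opL (sclL (-1) (mulL U (relK f))) (F f) =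
      ((-1 : ℤ) : ZMod 5) • (opL U) (opL (relK f) (F f)) := by
    intro f
    rw [ld_scl, ld_mulL hTrm U (relK f) hU (hr f)]
    rfl
  rw [Finset.sum_congr rfl fun f _ => h1 f, ← Finset.smul_sum, ← map_sum, hR r s F h, map_zero,
    smul_zero]

/-- The monomial oW 0 * (oB - 1)^i * (oA - 1)^j. -/
private theorem lv_lead (hTrm : S5Trm) (hLow0 : S5Low0) (hNfa : S5Nfa) (i j : ℕ) (d : ℤ)
    (F : Fn5 (5 ^ r) (5 ^ s)) (hF : F ∈ Wd5 d) :
    ldMon 0 (i, 0, j) F - (dY ^ i * dX ^ j : Module.End (ZMod 5) (Fn5 (5 ^ r) (5 ^ s))) F ∈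
      Wd5 (d - (((i + j : ℕ) : ℤ) + 1)) := by
  obtain ⟨l1, l2, l3, l4, l5, l6, l7, l8, _⟩ := hLow0 r s
  obtain ⟨n1, n2, n3, n4, n5, n6, n7, n8⟩ := hNfa r s
  have hA := ld_lw_pow hLow0 (oA - 1 : Module.End (ZMod 5) (Fn5 (5 ^ r) (5 ^ s))) 1
    (by exact_mod_cast n7) j
  have hB := ld_lw_pow hLow0 (oB - 1 : Module.End (ZMod 5) (Fn5 (5 ^ r) (5 ^ s))) 1
    (by exact_mod_cast n8) i
  have hX := ld_lw_pow hLow0 (dX : Module.End (ZMod 5) (Fn5 (5 ^ r) (5 ^ s))) 1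
    (by exact_mod_cast l7) j
  have pA := ld_pow hLow0 _ _ n7 l7 n5 j
  have pB := ld_pow hLow0 _ _ n8 l8 n6 i
  have q2 := l1 _ _ _ _ hB pA
  have q3 := l1 _ _ _ _ pB hX
  have e2 : ((1 * i : ℕ) : ℤ) + ((j : ℤ) + 2) = ((i + j : ℕ) : ℤ) + 2 := by push_cast; ring
  have e3 : (i : ℤ) + 2 + ((1 * j : ℕ) : ℤ) = ((i + j : ℕ) : ℤ) + 2 := by push_cast; ring
  rw [e2] at q2
  rw [e3] at q3
  have q4 := l2 _ _ _ q2 q3
  have e4 : (oB - 1) ^ i * ((oA - 1) ^ j - dX ^ j) + ((oB - 1) ^ i - dY ^ i) * dX ^ j =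
      ((oB - 1) ^ i * (oA - 1) ^ j - dY ^ i * dX ^ j : Module.End (ZMod 5) (Fn5 (5 ^ r) (5 ^ s))) := by
    rw [mul_sub, sub_mul]
    abel
  rw [e4] at q4
  have m2 := l4 _ _ (((i + j : ℕ) : ℤ) + 1) (by linarith) q4 d F hF
  have h1 : (oW 0 : Module.End (ZMod 5) (Fn5 (5 ^ r) (5 ^ s))) = 1 := by
    refine LinearMap.ext fun G => ?_
    exact (hTrm (ZMod 5) r s G).2.1
  have e6 : ldMon 0 (i, 0, j) F - (dY ^ i * dX ^ j : Module.End (ZMod 5) (Fn5 (5 ^ r) (5 ^ s))) F =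
      ((oB - 1) ^ i * (oA - 1) ^ j - dY ^ i * dX ^ j : Module.End (ZMod 5) (Fn5 (5 ^ r) (5 ^ s))) F := by
    rw [LinearMap.sub_apply]
    unfold ldMon
    simp only [pow_zero, mul_one, h1, one_mul]
  rw [e6]
  exact m2

/-- Sums over `w` and `M7` with one nonzero block. -/
private theorem lv_sum (S : Finset (ℕ × ℕ × ℕ)) (hS : S ⊆ M7) (c : Fin 4 → ℕ × ℕ × ℕ → ZMod 5)
    (hc : ∀ w t, w ≠ 0 ∨ t ∉ S → c w t = 0) :
    ∑ w, ∑ t ∈ M7, c w t • (ldMon w t : Module.End (ZMod 5) (Fn5 (5 ^ r) (5 ^ s))) =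
      ∑ t ∈ S, c 0 t • ldMon 0 t := by
  rw [Finset.sum_eq_single (0 : Fin 4)]
  · refine (Finset.sum_subset hS fun t _ hn => ?_).symm
    rw [hc 0 t (Or.inr hn), zero_smul]
  · intro w _ hw
    refine Finset.sum_eq_zero fun t _ => ?_
    rw [hc w t (Or.inl hw), zero_smul]
  · intro h
    exact absurd (Finset.mem_univ _) h

private theorem lv_Lo (hLow0 : S5Low0) : (LoK : Module.End (ZMod 5) (Fn5 (5 ^ r) (5 ^ s))) =
    dY ^ 1 * dX ^ 5 + (dY ^ 5 * dX ^ 1 + (dY ^ 3 * dX ^ 3 + dY ^ 3 * dX ^ 3)) := by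
  obtain ⟨l1, l2, l3, l4, l5, l6, l7, l8, hc, _⟩ := hLow0 r s
  have hc2 : ∀ Z : Module.End (ZMod 5) (Fn5 (5 ^ r) (5 ^ s)), dX * (dY * Z) = dY * (dX * Z) := by
    intro Z
    rw [← mul_assoc, hc, mul_assoc]
  unfold LoK
  simp only [pow_succ, pow_zero, one_mul, mul_add, add_mul, mul_assoc, hc, hc2]
  abel

end ops

/-- Module LdV. -/
theorem hLdV (ht : S5Trm) (hl : S5Low0) (hn : S5Nfa) (he : S5Exp) (hr : TRll) (hg : TCeG)
    (hc : TCeV) : TLdV := by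
  intro r s d F hR hF i
  have a2 : ∀ i f, ∀ t ∈ T2K i f, Gd t := fun i f => ((hg i).1 f).1
  have a7 : ∀ i f, ∀ t ∈ T7K i f, Gd t := fun i f => ((hg i).1 f).2.1
  have a13 : ∀ i f, ∀ t ∈ T13K i f, Gd t := fun i f => ((hg i).1 f).2.2.2.1
  have a19 : ∀ i f, ∀ t ∈ T19K i f, Gd t := fun i f => ((hg i).1 f).2.2.2.2.1
  have a29 : ∀ i f, ∀ t ∈ T29K i f, Gd t := fun i f => ((hg i).1 f).2.2.2.2.2
  have ar : ∀ f, ∀ t ∈ relK f, Gd t := fun f => (hg f).2.1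
  have av : ∀ i, ∀ t ∈ mVK i, Gd t := fun i => (hg i).2.2.2
  have hV : ∀ i f, ∀ t ∈ VLK i f, Gd t := fun i f =>
    ld_gd_app (ld_gd_app (ld_gd_app (ld_gd_app (ld_gd_app (ld_gd_scl _ (lv_gd_mm a2 a7 i f))
      (ld_gd_scl _ (lv_gd_mm a7 a7 i f))) (ld_gd_scl _ (lv_gd_mm a2 a13 i f)))
      (ld_gd_scl _ (a19 i f))) (ld_gd_scl _ (a29 i f))) (lv_gd_id 3 i f)
  have hB : ∀ i f, ∀ t ∈ BVK i f, Gd t := fun i f =>
    ld_gd_app (hV i f) (ld_gd_scl _ (ld_gd_mulL (av i) (ar f)))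
  -- modulo the relation
  have eV : ∑ f : Fin 3, opL (VLK i f) (F f) = ∑ f : Fin 3, opL (BVK i f) (F f) := by
    have h0 := lv_mulrel ht hr F hR (mVK i) (av i) ar
    have e : ∀ f : Fin 3, opL (BVK i f) (F f) = opL (VLK i f) (F f) +
        opL (sclL (-1) (mulL (mVK i) (relK f))) (F f) := by
      intro f
      unfold BVK
      rw [ld_app]
      rfl
    rw [Finset.sum_congr rfl fun f _ => e f, Finset.sum_add_distrib, h0, add_zero]
  have key : ∀ f : Fin 3, opL (BVK i f) (F f) - (if i = f then LoK (F f) else 0) ∈ Wd5 (d - 7) := by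
    intro f
    have k := ld_key hl hn he (r := r) (s := s) (BVK i f) (hB i f) 7 (by norm_num)
      (fun w t => ((cv i f w t : ℤ) : ZMod 5)) (fun w t ht hw => ld_cast (hc i f w t ht))
    by_cases hif : i = f
    · rw [if_pos hif]
      rw [lv_sum {(1, 0, 5), (3, 0, 3), (5, 0, 1)} (by decide) _ (fun w t ht => by
          rw [cv0 i f w t ht, Int.cast_zero]),
          Finset.sum_insert (by decide), Finset.sum_insert (by decide), Finset.sum_singleton,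
          cv1 hif, cv3 hif, cv5 hif] at k
      have h1 := k d (F f) (hF f)
      have e0 : ((7 : ℕ) : ℤ) = 7 := rfl
      rw [e0] at h1
      have a1 := lv_lead ht hl hn 1 5 d (F f) (hF f)
      have a3 := Submodule.smul_mem _ (2 : ZMod 5) (lv_lead ht hl hn 3 3 d (F f) (hF f))
      have a5 := lv_lead ht hl hn 5 1 d (F f) (hF f)
      have e1 : d - (((1 + 5 : ℕ) : ℤ) + 1) = d - 7 := by norm_num
      have e2 : d - (((3 + 3 : ℕ) : ℤ) + 1) = d - 7 := by norm_num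
      have e3 : d - (((5 + 1 : ℕ) : ℤ) + 1) = d - 7 := by norm_num
      rw [e1] at a1
      rw [e2] at a3
      rw [e3] at a5
      have e : opL (BVK i f) (F f) - LoK (F f) =
          (opL (BVK i f) - (((1 : ℤ) : ZMod 5) • ldMon 0 (1, 0, 5) + (((2 : ℤ) : ZMod 5) • ldMon 0 (3, 0, 3) +
            ((1 : ℤ) : ZMod 5) • ldMon 0 (5, 0, 1))) :
            Module.End (ZMod 5) (Fn5 (5 ^ r) (5 ^ s))) (F f) +
          ((ldMon 0 (1, 0, 5) (F f) -
            (dY ^ 1 * dX ^ 5 : Module.End (ZMod 5) (Fn5 (5 ^ r) (5 ^ s))) (F f)) +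
          (2 : ZMod 5) • (ldMon 0 (3, 0, 3) (F f) -
            (dY ^ 3 * dX ^ 3 : Module.End (ZMod 5) (Fn5 (5 ^ r) (5 ^ s))) (F f)) +
          (ldMon 0 (5, 0, 1) (F f) -
            (dY ^ 5 * dX ^ 1 : Module.End (ZMod 5) (Fn5 (5 ^ r) (5 ^ s))) (F f))) := by
        rw [lv_Lo hl]
        simp only [LinearMap.sub_apply, LinearMap.add_apply, LinearMap.smul_apply]
        push_cast
        rw [one_smul, one_smul, two_smul, two_smul]
        abel
      rw [e]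
      exact Submodule.add_mem _ h1 (Submodule.add_mem _ (Submodule.add_mem _ a1 a3) a5)
    · rw [if_neg hif, sub_zero]
      simp only [cvn hif, Int.cast_zero, zero_smul, Finset.sum_const_zero, sub_zero] at k
      exact k d (F f) (hF f)
  have e : ∑ f : Fin 3, opL (VLK i f) (F f) - LoK (F i) =
      ∑ f : Fin 3, (opL (BVK i f) (F f) - (if i = f then LoK (F f) else 0)) := by
    rw [Finset.sum_sub_distrib, eV, Finset.sum_ite_eq, if_pos (Finset.mem_univ _)]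
  rw [e]
  exact Submodule.sum_mem _ fun f _ => key f

end Pool.Agent.Helper16.TK
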